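import Pool.Agent.Q57.HK.Dir

/-!
# Termination of flips without `ℚ`-factoriality for the covers of products of projective spaces

Let `F i` be a form of degree `d i` in `n i + 1` variables whose zero set in the projective
`n i`-space is a smooth hypersurface, and let `H i` be the cyclic hypersurface `w ^ (d i) = F i` in
the projective `(n i + 1)`-space. Let `K` be the function field of a quotient
`Y = (H 1 × ... × H r) / G`, where `G` is any group of diagonal automorphisms
`w i ↦ ζ i * w i`, `ζ i ^ (d i) = 1`. Equivalently, `K` is generated by the affine coordinates
`x i j / x i 0` of the product of the projective `n i`-spaces and by roots `z j`,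
`z j ^ (m j) = ∏ i, (F i (x i) / x i 0 ^ (d i)) ^ (a j i)`, where `m j` divides `a j i * d i`: the
abelian covers of the product of the projective spaces which are branched along the hypersurfaces
`F i = 0` of the factors. There is no condition on the dimensions and the degrees, so `Y` can be
rationally connected, Calabi-Yau, of general type, or of any intermediate Kodaira dimension.

A prime divisor `P` over `Y` (a divisorial place of `K`) has the vector `multiplicities F d x P` of the
multiplicities `v i` of the hypersurfaces along `P`. The vectors `v ≠ 0` of nonnegative integers with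
`m j ∣ ∑ i, a j i * v i` for all `j` are the `Admissible` ones: the nonzero points, in the positive
orthant, of the lattice of the toroidal variety `Y`.

**The varieties.** The toroidal modifications `X` of `Y` are given by the subdivisions (fans) of the
positive orthant into rational polyhedral cones; `fan` is the set of the maximal cones, each given by
a finite set of admissible generators which span the space.

**The divisors.** `D 1, ..., D p` are toroidal `ℚ`-Cartier divisors on `X`: sums of multiples `β i t`
of the hyperplane classes of the factors and of the prime divisors of the boundary of `X`. The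
coefficient of the pullback of `D i` at a prime divisor `P` over `X` is
`coefficient F d x (c i) (β i) P = c i v + ∑ t, β i t * h t`, where `v` is the vector of the
multiplicities, `h t` is minus the minimal order at `P` of the homogeneous coordinates of the `t`-th
factor, and `- c i v = ∑ k, u σ i k * v k` on the cone `σ`. Take divisors `D i` which generate all
toroidal `ℚ`-Cartier divisors on a `ℚ`-factorial `X`. If all `n i ≥ 3` then every divisor on `X` is,
up to `ℚ`-linear equivalence, toroidal (Lefschetz; this remark is not used and not proved here). In
particular the canonical divisor of `X` is `ℚ`-linearly equivalent to a rational combination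
`∑ i, κ i * D i`.

**The models.** Let `X'` be a normal projective variety which is `ℚ`-Gorenstein, but perhaps not
`ℚ`-factorial, and let `X --> X'` be a birational map whose inverse contracts no divisor, such that
the prime divisors on `X` which it contracts have nonnegative discrepancies on `X'` (for instance if
`X'` has terminal singularities). Let `k P` be the coefficients of the pullback of the pushforward of
the divisor `∑ i, κ i * D i` to `X'`, so that the discrepancy of `X'` along `P` is `- k P` plus a number
which depends only on `P`. Let `A` be an ample `ℚ`-divisor on `X'`, `α P` the coefficients of its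
pullback, and `lam` a combination such that the image on `X` of the pullback of `A` is
`∑ i, lam i * D i` (there is one after a change of `A` in its `ℚ`-linear equivalence class). For small
rational `t ≥ 0` the divisor `A + t K` on `X'` is ample; it has the coefficients `α P + t * k P`. The
combinations `m * (lam i + t * κ i)` which are integral have the same sections on `X` as
`m (A + t K)` on `X'` (the prime divisors which are contracted have nonnegative discrepancies on `X'`),
and have no base points on `X'` for suitable `m`. This is `IsModel`.

**The theorem.** There is a number `B` such that for every combination `κ`, among any `B + 1` models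
there are two with the same coefficients `k P` (with the same discrepancies), and every sequence of
models in which no discrepancy decreases and at least one increases in every step has less than `B`
steps.

So let `X 0` be a projective `ℚ`-Gorenstein variety with terminal singularities with a birational map
`X --> X 0` whose inverse contracts no divisor; for instance let `X` be a toroidal resolution or a
small `ℚ`-factorialization of `X 0`. If all `n i ≥ 3` then every sequence of flips in the sense of the
problem (without `ℚ`-factoriality; the contractions in the sequence may also contract divisors) which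
starts at `X 0` is finite, and its length is less than a number `B` which depends only on `X`. Indeed
the `X j` in the sequence are models, and the discrepancies increase as recalled in the problem file.
The same holds for the divisors `K + Δ` and their flips. In contrast to the flips of `ℚ`-factorial
varieties, the spaces of the classes of the `ℚ`-Cartier divisors on the `X j` can be different subspaces
of the space of the classes of divisors; the models are described only by the germs of the segments
`lam + t κ`.
-/

set_option autoImplicit false

open FF MvPolynomial Pool.Agent.W602.GT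

namespace Pool.Agent.Results.MP_a06248_ag.FlipsWithoutFactoriality

/-- The form `F` has no singular zeros: its partial derivatives have no common zero but `0`. -/
def Smooth {n : ℕ} (F : MvPolynomial (Fin (n + 1)) ℂ) : Prop :=
  ∀ x : Fin (n + 1) → ℂ, x ≠ 0 → ∃ l, eval x (pderiv l F) ≠ 0

section fans

variable {r R : ℕ}

/-- The multiplicities which satisfy the divisibility conditions. -/
def Admissible (m : Fin R → ℕ) (a : Fin R → Fin r → ℕ) (v : Fin r → ℕ) : Prop :=
  v ≠ 0 ∧ ∀ j, m j ∣ ∑ i, a j i * v i

/-- The vector `v` is in the cone which is generated by the vectors in `σ`. -/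
def InCone (σ : Finset (Fin r → ℕ)) (v : Fin r → ℕ) : Prop :=
  ∃ w : (Fin r → ℕ) → ℚ, (∀ s, 0 ≤ w s) ∧ ∀ k, (v k : ℚ) = ∑ s ∈ σ, w s * s k

/-- `fan` is a finite set of cones, each generated by a finite set of admissible vectors which span
the whole space, which cover all admissible vectors. -/
structure IsFan (m : Fin R → ℕ) (a : Fin R → Fin r → ℕ) (fan : Finset (Finset (Fin r → ℕ))) :
    Prop where
  adm : ∀ σ ∈ fan, ∀ s ∈ σ, Admissible m a s
  full : ∀ σ ∈ fan, ∀ f : Fin r → ℚ, ∃ q : (Fin r → ℕ) → ℚ, ∀ k, f k = ∑ s ∈ σ, q s * s k
  cover : ∀ v, Admissible m a v → ∃ σ ∈ fan, InCone σ v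

end fans

section places

variable {r : ℕ} {n : Fin r → ℕ} {K : Type} [Field K] [Algebra ℂ K]

/-- The affine coordinates of the product of the projective spaces. -/
noncomputable def affine (x : ∀ i, Fin (n i + 1) → K) (b : (i : Fin r) × Fin (n i)) : K :=
  x b.1 b.2.succ / x b.1 0

/-- The minimal order at `P` of the homogeneous coordinates `y`. -/
noncomputable def minimalOrder {n : ℕ} (y : Fin (n + 1) → K) (P : Place ℂ K) : ℤ :=
  Finset.univ.inf' Finset.univ_nonempty fun j => P.ord (y j)

/-- The multiplicities of the hypersurfaces `F i = 0` along the prime divisor `P`; the `x i j` are the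
homogeneous coordinates of the `i`-th factor, which are divided by one of minimal order at `P`. -/
noncomputable def multiplicities (F : ∀ i, MvPolynomial (Fin (n i + 1)) ℂ) (d : Fin r → ℕ)
    (x : ∀ i, Fin (n i + 1) → K) (P : Place ℂ K) (i : Fin r) : ℕ :=
  (P.ord (aeval (x i) (F i)) - d i * minimalOrder (x i) P).toNat

/-- The coefficient at the prime divisor `P` of the divisor with the function `c` of the
multiplicities and the degrees `β t`: it is `c v` plus `β t` times the coefficient at `P` of the
hyperplane class of the `t`-th factor, which is represented by the divisor with the coefficients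
`- minimalOrder (x t) P` (its sections are the linear forms in the `x t j`). -/
noncomputable def coefficient (F : ∀ i, MvPolynomial (Fin (n i + 1)) ℂ) (d : Fin r → ℕ)
    (x : ∀ i, Fin (n i + 1) → K) (c : (Fin r → ℕ) → ℚ) (β : Fin r → ℤ) (P : Place ℂ K) : ℚ :=
  c (multiplicities F d x P) - ∑ t, (β t : ℚ) * minimalOrder (x t) P

end places

section divisors

variable {K : Type} [Field K] [Algebra ℂ K] {p : ℕ} (N : ℕ) (δ : Fin p → Place ℂ K → ℚ)

/-- `f` is a section of `∑ i, μ i * D i`: its order at every prime divisor `P` over `X` (every
divisorial place `P` of `K`) is at least minus the coefficient `∑ i, μ i * δ i P` of the pullback of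
`∑ i, μ i * D i`, or `f = 0`. -/
def IsSection (μ : Fin p → ℤ) (f : K) : Prop :=
  ∀ P : Place ℂ K, Divisorial N P → f = 0 ∨ - ∑ i, (μ i : ℚ) * δ i P ≤ P.ord f

/-- `α P` and `k P` are the coefficients, at the prime divisors `P` over `X`, of the pullbacks from a
model `X'` of an ample divisor `A` with the combination `lam` and of the divisor `K` with the
combination `κ`: for all small rational `t ≥ 0`, the combinations `m * (lam i + t * κ i)` which are
integral have the same sections as the divisor `m (A + t K)` on `X'`, which has the coefficients
`m * (α P + t * k P)`; and for some `m ≥ 1` this divisor has for every `P` a section whose order at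
`P` is the minimal one. -/
def IsModel (κ lam : Fin p → ℚ) (α k : Place ℂ K → ℚ) : Prop :=
  ∃ ε : ℚ, 0 < ε ∧ ∀ t : ℚ, 0 ≤ t → t ≤ ε →
    (∀ (m : ℕ) (ν : Fin p → ℤ), (∀ i, (m : ℚ) * (lam i + t * κ i) = ν i) → ∀ f : K,
      (IsSection N δ ν f ↔ ∀ P : Place ℂ K, Divisorial N P →
        f = 0 ∨ - (m * (α P + t * k P)) ≤ P.ord f)) ∧
    ∃ m : ℕ, 1 ≤ m ∧ ∃ ν : Fin p → ℤ, (∀ i, (m : ℚ) * (lam i + t * κ i) = ν i) ∧
      ∀ P : Place ℂ K, Divisorial N P → ∃ f : K, f ≠ 0 ∧ IsSection N δ ν f ∧
        (P.ord f : ℚ) ≤ - (m * (α P + t * k P))

end divisors

/-- **Termination of flips without `ℚ`-factoriality.** Let `K` be the function field of an abelian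
cover `Y` of the product of the projective `n i`-spaces which is branched along smooth hypersurfaces
`F i = 0` of the factors, `X` the toroidal modification of `Y` which is given by `fan`, and `D i`,
`i < p`, toroidal `ℚ`-Cartier divisors on `X` with the degrees `β i t` and the coefficients `c i`.
There is a number `B` such that for every rational combination `κ`:
(1) among any `B + 1` models there are two with the same coefficients `k P` at all prime divisors `P`
over `X`;
(2) every sequence of models in which no coefficient `k P` increases and some coefficient becomes
smaller in every step (no discrepancy decreases and some discrepancy becomes larger) has less than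
`B` steps. -/
theorem result (r N R p : ℕ) (n d : Fin r → ℕ) (hr : 1 ≤ r) (hn : ∀ i, 1 ≤ n i)
    (hd : ∀ i, 1 ≤ d i) (hN : N = ∑ i, n i)
    (F : ∀ i, MvPolynomial (Fin (n i + 1)) ℂ) (hF : ∀ i, (F i).IsHomogeneous (d i))
    (hs : ∀ i, Smooth (F i)) (m : Fin R → ℕ) (hm : ∀ j, 1 ≤ m j) (a : Fin R → Fin r → ℕ)
    (hdiv : ∀ j i, m j ∣ a j i * d i)
    (K : Type) [Field K] [Algebra ℂ K] (x : ∀ i, Fin (n i + 1) → K) (hx0 : ∀ i, x i 0 ≠ 0)
    (hbas : IsTranscendenceBasis ℂ (affine x)) (z : Fin R → K)
    (hz : ∀ j, z j ^ m j = ∏ i, (aeval (x i) (F i) / x i 0 ^ d i) ^ a j i)
    (hgen : IntermediateField.adjoin ℂ (Set.range (affine x) ∪ Set.range z) = ⊤)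
    (fan : Finset (Finset (Fin r → ℕ))) (hfan : IsFan m a fan)
    (c : Fin p → (Fin r → ℕ) → ℚ) (hc0 : ∀ i, c i 0 = 0) (β : Fin p → Fin r → ℤ)
    (u : Finset (Fin r → ℕ) → Fin p → Fin r → ℚ)
    (hlin : ∀ σ ∈ fan, ∀ i v, Admissible m a v → InCone σ v → - c i v = ∑ k, u σ i k * v k)
    (δ : Fin p → Place ℂ K → ℚ) (hδ : ∀ i P, δ i P = coefficient F d x (c i) (β i) P) :
    ∃ B : ℕ, ∀ κ : Fin p → ℚ,
      (∀ (lam : Fin (B + 1) → Fin p → ℚ) (α k : Fin (B + 1) → Place ℂ K → ℚ),
        (∀ j, IsModel N δ κ (lam j) (α j) (k j)) →
        ∃ j j' : Fin (B + 1), j < j' ∧ ∀ P : Place ℂ K, Divisorial N P → k j P = k j' P) ∧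
      ∀ (L : ℕ) (lam : ℕ → Fin p → ℚ) (α k : ℕ → Place ℂ K → ℚ),
        (∀ j ≤ L, IsModel N δ κ (lam j) (α j) (k j)) →
        (∀ j < L, (∀ P : Place ℂ K, Divisorial N P → k (j + 1) P ≤ k j P) ∧
          ∃ P : Place ℂ K, Divisorial N P ∧ k (j + 1) P < k j P) → L < B :=
  Pool.Agent.Q57.HK.term_dir (Pool.Agent.Q57.CX.main_cox (N := N) hr hn hN hd hF hs hx0 hbas hm hdiv
    hz hgen (S := fan) ⟨hfan.adm, hfan.full, hfan.cover⟩ hc0 (u := u) hlin (β := β) hδ)

end Pool.Agent.Results.MP_a06248_ag.FlipsWithoutFactoriality
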