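import Pool.Agent.Q47.FLIP.Ord
import Pool.Agent.Q47.FLIP.Mod

/-!
# Flips without `ℚ`-factoriality for toric bundles over quotients of complex tori

Let `X = V / Γ` be the quotient of a complex torus of any dimension by any finite group (with or
without fixed points and reflections), and let `Y → X` be a toric bundle: a locally trivial bundle
whose fibre is a smooth complete toric variety, twisted by arbitrary line bundles `c_i` on `X`. Let
`Δ_0, ..., Δ_s` be effective `ℚ`-divisors on `Y` such that `D_j = m (K_Y + Δ_j)` is integral and such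
that for each `j` the pair `(Y_v, Δ_j)` is log canonical for one fibre `Y_v` of `Y → X` (which may
depend on `j`). For `t ∈ ℝ^(s+1)` let `D(t) = ∑ t_j D_j`.

Let `X'` be a normal projective `ℚ`-Gorenstein variety (not necessarily `ℚ`-factorial) and `Y ⇢ X'` a
birational map which contracts no divisors on `X'`, and only such divisors on `Y` which have
discrepancy `≥ 0` over `X'` (this is the case if `X'` is terminal). Let `K_Y = D(κ)` numerically with
`κ` rational, and let `A` be an ample `ℚ`-divisor on `X'` with strict transform `D(l)`, `l ≥ 0`. By the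
negativity lemma the multiples of `D(l + x κ)` and of `A + x K_X'` have the same sections for all
small rational `x ≥ 0`, and the order of the fixed part of the multiples of `D(l + x κ)` at a prime
divisor `w` over `Y` is `α(w) + x y(w)`, where `y(w) = a(w, X') - a(w, Y)` is the difference of the
discrepancies. So `y` is the function of a model in the direction `κ` in the sense of the theorem.

The theorem: for all `κ` the number of these functions `y` is at most `B`, and every sequence of such
functions in which in each step `y(w)` does not decrease for all `w` and increases for some `w` has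
less than `B` steps, where `B` does not depend on `κ`. So `B` bounds the length of every sequence of
flips of varieties `X'` of this kind (in each step the discrepancies do not decrease, and one
increases).

The proof. By `Pool.Agent.Q47.GEO` the pairs `(t, α)` of the monomials `x ^ α` in sections of `D(t)`
form, up to saturation, a finitely generated semigroup `Q`, and the monomials of the sections of
`D(t) + A` are near `Q`. So the asymptotic order of `D(t)` at `w` is the minimum of `w(x ^ β)` over the
fibre of the cone of `Q` over `t`. It is attained at a rational point, and is linear in `t` on the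
chambers of a finite hyperplane arrangement which does not depend on `w`. For small `x ≥ 0` the points
`l + x κ` are in one closed chamber, and `y(w)` is the value at `κ` of the linear form on it.
-/

set_option autoImplicit false

universe u w

namespace Pool.Agent.Results.MP_a06248_ag.ToricBundles

open Pool.Agent.W594.SYZ2 Pool.Agent.TH735.AQ Q47.TB Q47.FLIP MvPolynomial

variable {V : Type u} [NormedAddCommGroup V] [NormedSpace ℂ V] {ι : Type w} [Fintype ι]

/-- Let `X = V / Γ` be a torus quotient, let `ρ` define the ramification divisor of `V → X`, let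
`Y → X` be the toric bundle given by a smooth complete fan with the rays `r i` and by line bundles
`c i` on `X` with Chern forms `Hc i`, let `F j` define the effective divisor `m Δ_j` on `Y`
(`j = 0, ..., s`, `s ≥ 1`), and let `D_j = O_Y(m (K_Y + Δ_j))` be the line bundle on `Y` given by the
class of `D j = d j - m (1, ..., 1)` and by `L j`, with Chern forms `H j`. Assume that for each `j` the
fibre `(Y_v, Δ_j)` is log canonical for some `v = v₀ j`. Let `D(t) = ∑ t_j D_j`.

There is a number `B` such that for all rational vectors `κ`

(1) the set of the functions `y` of the models in the direction `κ` has at most `B` elements: the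
functions `y(w)` of the discrete valuations `w` centred on `Y` such that for some rational `l`, some
function `α` and some rational `ε > 0` with `l ≥ 0` and `l + ε κ ≥ 0` the asymptotic order of
`D(l + x κ)` at `w` is `α(w) + x y(w)` for all `w` and all rational `x` in `[0, ε]`;

(2) for all rational `l` and `ε > 0` with `l ≥ 0` and `l + ε κ ≥ 0` such that for all rational `x` in
`[0, ε]` a positive multiple of `D(l + x κ)` has a nonzero section there is such a function `y`;

(3) if `y_0, ..., y_k` are such functions and if for all `i < k` `y_i(w) ≤ y_{i+1}(w)` for all `w` and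
`y_i(w) < y_{i+1}(w)` for some `w`, then `k < B`. -/
theorem result [FiniteDimensional ℂ V] (Γ : Subgroup (V ≃ᵃ[ℂ] V)) (hΓ : IsTorusQuotient Γ)
    (ρ : V → ℂ) (hρ : IsRamification Γ ρ)
    (n : ℕ) (r : ι → Fin n → ℤ) (S : Set (Set ι)) (hS : IsSmoothFan r S)
    (c : ι → LineBundle Γ) (Hc : ι → V → V → ℂ) (hc : ∀ i, IsChernForm (c i) (Hc i))
    (s : ℕ) (hs : 1 ≤ s) (m : ℕ) (hm : 1 ≤ m) (d : Fin (s + 1) → ι → ℤ)
    (F : Fin (s + 1) → V → MvPolynomial ι ℂ) (L : Fin (s + 1) → LineBundle Γ)
    (H : Fin (s + 1) → V → V → ℂ) (hL : ∀ j, IsChernForm (L j) (H j))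
    (hF : ∀ j, Q47.TB.IsLogPluricanonical r c m ρ (d j) (F j) (L j))
    (v₀ : Fin (s + 1) → V) (hlc : ∀ j, IsLogCanonical S m (F j (v₀ j)))
    (D : Fin (s + 1) → ι → ℤ) (hD : D = fun j i => d j i - m) :
    ∃ B : ℕ, ∀ κ : Fin (s + 1) → ℚ,
      {y : Valn V S → ℝ | ∃ l, IsModelAt (IsAsymptoticOrder r c D L) κ l y}.encard ≤ B ∧
      (∀ (l : Fin (s + 1) → ℚ) (ε : ℚ), 0 < ε → (∀ j, 0 ≤ l j ∧ 0 ≤ l j + ε * κ j) →
        (∀ x : ℚ, 0 ≤ x → x ≤ ε → ∀ (N : ℕ) (t : Fin (s + 1) → ℕ), 1 ≤ N →
          (∀ j, (t j : ℚ) = N * (l j + x * κ j)) →
            ∃ k : ℕ, 1 ≤ k ∧ ∃ G, IsSectionOf r c D L (fun j => k * t j) G ∧ G ≠ 0) →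
        ∃ y : Valn V S → ℝ, IsModelAt (IsAsymptoticOrder r c D L) κ l y) ∧
      ∀ (k : ℕ) (y : ℕ → Valn V S → ℝ),
        (∀ i ≤ k, ∃ l, IsModelAt (IsAsymptoticOrder r c D L) κ l (y i)) →
        (∀ i < k, (∀ w, y i w ≤ y (i + 1) w) ∧ ∃ w, y i w < y (i + 1) w) → k < B := by
  classical
  obtain ⟨p, T, a, h⟩ := exists_data (Hc := Hc) hΓ hρ hS hs hc hm hL hF hlc hD
  obtain ⟨W, σ, hσ⟩ := h.linear
  refine ⟨3 ^ W.card, fun κ => ?_⟩
  have h1 : {y : Valn V S → ℝ | ∃ l, IsModelAt (IsAsymptoticOrder r c D L) κ l y}
      ⊆ Set.range fun ε w => ∑ j, σ ε w j * κ j :=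
    models_at (Psef := fun t => (Q47.GEO.fib T a t).Nonempty) hσ
      (fun w t o o' ho ho' => order_unique ho ho') (fun w t o ho => h.fib_of_order ho) κ
  have h2 := (Set.encard_le_encard h1).trans (card_range W _)
  refine ⟨h2, fun l ε hε hpos hp => ?_, fun k y hy hk => ?_⟩
  · exact exists_model_at (Psef := fun t => (Q47.GEO.fib T a t).Nonempty) hσ κ l hε hpos
      fun x hx0 hx1 N t hN ht => by
        obtain ⟨k, hk, G, hG, hG0⟩ := hp x hx0 hx1 N t hN ht
        exact h.fib_of_section hk hG hG0
  · exact chain h2 (fun y w => y w) y hy hk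

end Pool.Agent.Results.MP_a06248_ag.ToricBundles
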