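import Pool.Agent.Q68.MF.Term

/-!
# Termination of flips for toroidal models of arbitrary covers, with a uniform bound

Let `V i`, `i = 1, ..., r`, be a projective variety of dimension `n i ≥ 1` in the projective
`M i`-space, and let `F (i, k)`, `k = 0, ..., n i`, be forms of degrees `d (i, k)` which have no common
zero on `V i`. Let `K` be any finite extension of the function field of the product
`V = V 1 × ... × V r`, of any degree and with any Galois group. The homogeneous coordinates of the
generic point of `V i` are `x i j`, `j = 0, ..., M i`. Suppose that the canonical divisor of `V i` is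
the multiple `κ i` of the hyperplane section: there is a rational differential form `Ω` of the maximal
degree such that the forms `Ω * ∏ i, (x i j) ^ (κ i)`, where `x i j` is a coordinate which is not zero
at a given point, are local generators of the canonical bundle of `V`. So
`logDiscrepancy F d κ x Ω P` is the log discrepancy of the pair `(V, ∑ (i, k), (F (i, k) = 0))` along
the prime divisor `P` over `V` (a divisorial place of `K`). In the theorem `Ω` may be any nonzero
rational form and `κ i` any integers.

**The divisors.** A prime divisor `P` has the vector `multiplicities F d x P` of the multiplicities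
`v (i, k)` of the hypersurface sections `F (i, k) = 0` along `P`. It is a vector of a face: for every
`i` some `v (i, k)` is zero. The divisors `K + Δ 1, ..., K + Δ p` on a normal model `X` of `K` are given
by functions `ψ i` on these vectors: the log discrepancy of `(X, Δ i)` along any prime divisor `P` over
`X` is `ψ i v + logDiscrepancy F d κ x Ω P`, `v` the vector of `P`, so that the `coefficient` of `P` in
the pullback of `K + Δ i` is `δ i P = 1 - ψ i v - logDiscrepancy F d κ x Ω P`. The functions `ψ i` are
homogeneous and, for example, linear on the cones of a subdivision of the fan of the faces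
(`AreLogDiscrepancies`): these are the toroidal divisors on the toroidal modifications `X` of the
covers of `V` which are unramified outside the zero sets of the forms, with arbitrary rational
coefficients. All the divisors are `ℚ`-linearly equivalent to pullbacks of toric divisors under a map
to a product of weighted projective spaces. For real `lam i ≥ 0` let
`D lam = ∑ i, lam i (K + Δ i)`.

**The models.** Let `X' ` be a normal projective variety which is birational to `X` by a map whose
inverse contracts no divisor, such that for some `lam` the pushforward of `D lam` to `X'` is ample,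
with small positive part: the asymptotic order of vanishing (Nakayama's `σ_P`) of `D lam'` along any
prime divisor `P` over `X` is, for all `lam'` near `lam`, the difference of the orders of the
pullbacks to `P` of `D lam'` from `X` and from `X'`. So it is a linear function of `lam'` near `lam`.
This linear function `s P` of all real combinations `c` determines the pullbacks of all `D c` from
`X'`: for every `c`, the coefficient of `P` in the pullback of the pushforward of `D c` from `X'` is
the one from `X` minus `s P c`. In particular if `D c = K + Δ`, the discrepancy of `(X', Δ')` along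
`P` is the discrepancy of `(X, Δ)` along `P` plus `s P c`. In the theorem a model is a combination
`lam` with linear functions `s P` which give the asymptotic orders along `P` near `lam` (`IsModel`).
The orders of sections along `P` are the orders of their values at a frame `D` of rational vector
fields, so `s` depends on `P` and on `D`, but the differences of the discrepancies of two models do
not depend on `D`.

**Sequences of flips.** Let `X 0 --> X 1 --> X 2 --> ...` be a sequence of flips for `K + Δ`, or
more generally of steps of the minimal model program. As the problem file recalls, no discrepancy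
decreases and at least one discrepancy increases in each step. Suppose that `K + Δ = D c` for a real
vector `c`, for instance `K + Δ = K + Δ i`, and that each `X j` has an ample divisor which is the
pushforward of some `D lam`, where a neighbourhood of `lam` consists of pseudo-effective
combinations with nonnegative entries. This holds for all sequences of flips which start at `X` if the
classes of the `K + Δ i` generate the cone `N¹ (X)`, for flips do not change the space of the classes.
Then the `X j` are models with functions `s j` such that `s j P c ≤ s (j + 1) P c` for all `P`,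
with a strict inequality for at least one `P`.

**The theorem.** There is an integer `B` which depends only on the dimensions `n i`, the degrees
`d (i, k)`, the integers `κ i` and the functions `ψ i`, such that for all `V i`, all forms `F (i, k)`
of these degrees, all fields `K` and all forms `Ω`:

* there are at most `B` models: of any `B + 1` models two have the same functions `s`;
* every open set of pseudo-effective combinations with nonnegative entries contains a model;
* for every real vector `c`, every sequence of models with functions `s 0, s 1, ..., s m` such that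
  `s j P c ≤ s (j + 1) P c` for all `P`, with a strict inequality for at least one `P`, has
  `m < B`.

So every sequence of flips as above is finite, and its length is bounded uniformly for all varieties
`X` over the varieties `V` with the same numerical data, in particular for all covers of any degree.
There is no assumption on the singularities of `X` (terminal, log canonical or worse), `X` and the
`X j` need not be `ℚ`-factorial, `K + Δ` need not be pseudo-effective, and the flips need not be
flips with scaling.
-/

set_option autoImplicit false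

open FF MvPolynomial Pool.Agent.W602.GT
open scoped Topology

namespace Pool.Agent.Results.MP_a06248_ag.UniformTermination

/-- The index `(i, k)` of the `n i + 1` hypersurface sections of the variety `V i`. -/
abbrev Hypersurface {r : ℕ} (n : Fin r → ℕ) := (i : Fin r) × Fin (n i + 1)

section places

variable {r N p : ℕ} {n M : Fin r → ℕ} {K : Type} [Field K] [Algebra ℂ K]

/-- The ratios of the forms `F (i, k + 1)` and `F (i, 0)`, raised to powers of the same degree. -/
noncomputable def ratio (F : ∀ b : Hypersurface n, MvPolynomial (Fin (M b.1 + 1)) ℂ)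
    (d : Hypersurface n → ℕ) (x : ∀ i, Fin (M i + 1) → K) (b : (i : Fin r) × Fin (n i)) : K :=
  aeval (x b.1) (F ⟨b.1, b.2.succ⟩) ^ d ⟨b.1, 0⟩ /
    aeval (x b.1) (F ⟨b.1, 0⟩) ^ d ⟨b.1, b.2.succ⟩

/-- The forms `F (i, k)` have no common zero on `V i`, the variety of the points at which all forms
vanish which vanish at the generic point `x i`. -/
def NoCommonZeros (F : ∀ b : Hypersurface n, MvPolynomial (Fin (M b.1 + 1)) ℂ)
    (x : ∀ i, Fin (M i + 1) → K) : Prop :=
  ∀ i, ∀ y : Fin (M i + 1) → ℂ, y ≠ 0 →
    (∀ (G : MvPolynomial (Fin (M i + 1)) ℂ) (m : ℕ), G.IsHomogeneous m → aeval (x i) G = 0 →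
      eval y G = 0) → ∃ k, eval y (F ⟨i, k⟩) ≠ 0

/-- The minimal order at `P` of the homogeneous coordinates `y` of one factor. -/
noncomputable def minimalOrder {k : ℕ} (y : Fin (k + 1) → K) (P : Place ℂ K) : ℤ :=
  Finset.univ.inf' Finset.univ_nonempty fun j => P.ord (y j)

/-- The multiplicities of the hypersurface sections `F (i, k) = 0` along the prime divisor `P`; the
`x i j` are the homogeneous coordinates of the `i`-th factor, which are divided by one of minimal
order at `P`. -/
noncomputable def multiplicities (F : ∀ b : Hypersurface n, MvPolynomial (Fin (M b.1 + 1)) ℂ)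
    (d : Hypersurface n → ℕ) (x : ∀ i, Fin (M i + 1) → K) (P : Place ℂ K) (b : Hypersurface n) :
    ℕ :=
  (P.ord (aeval (x b.1) (F b)) - d b * minimalOrder (x b.1) P).toNat

/-- The order of the form `Ω` along `P`: the minimal order of its values at vector fields which are
regular at `P`. -/
noncomputable def formOrder (Ω : (Fin N → Derivation ℂ K K) → K) (P : Place ℂ K) : ℤ :=
  sInf {k : ℤ | ∃ D : Fin N → Derivation ℂ K K, (∀ c, DerReg P (D c)) ∧ Ω D ≠ 0 ∧
    P.ord (Ω D) = k}

/-- The log discrepancy along `P` of the product of the `V i`, with the boundary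
`∑ (i, k), (F (i, k) = 0)`, if the forms `Ω * ∏ i, (x i j) ^ (κ i)` are local generators of the
canonical bundle, `x i j` a coordinate of minimal order at `P`. -/
noncomputable def logDiscrepancy (F : ∀ b : Hypersurface n, MvPolynomial (Fin (M b.1 + 1)) ℂ)
    (d : Hypersurface n → ℕ) (κ : Fin r → ℤ) (x : ∀ i, Fin (M i + 1) → K)
    (Ω : (Fin N → Derivation ℂ K K) → K) (P : Place ℂ K) : ℤ :=
  formOrder Ω P + 1 - ∑ b, (multiplicities F d x P b : ℤ) + ∑ i, κ i * minimalOrder (x i) P

/-- The coefficient of `P` in the pullback of `K + Δ`, for the divisor with the function `ψ`: the log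
discrepancy along `P` is `ψ v + logDiscrepancy F d κ x Ω P`, `v` the vector of the multiplicities. -/
noncomputable def coefficient (F : ∀ b : Hypersurface n, MvPolynomial (Fin (M b.1 + 1)) ℂ)
    (d : Hypersurface n → ℕ) (κ : Fin r → ℤ) (x : ∀ i, Fin (M i + 1) → K)
    (Ω : (Fin N → Derivation ℂ K K) → K) (ψ : (Hypersurface n → ℕ) → ℚ) (P : Place ℂ K) : ℚ :=
  1 - ψ (multiplicities F d x P) - logDiscrepancy F d κ x Ω P

/-- The vectors of the faces: for every `i` one of the entries is zero. -/
def IsFaceVector (v : Hypersurface n → ℕ) : Prop := ∀ i, ∃ k, v ⟨i, k⟩ = 0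

/-- The functions `ψ i` on the vectors of the faces are homogeneous, and for a finite set `T` of
nonzero vectors of the faces every vector `v` of a face is a nonnegative combination of the vectors
in `T`, such that all `ψ i v` are at most the combinations of the values at the vectors in `T` (for
functions which are linear on the cones of a fan let `T` be the generators of the rays). -/
structure AreLogDiscrepancies (ψ : Fin p → (Hypersurface n → ℕ) → ℚ) : Prop where
  homogeneous : ∀ i v (k : ℕ), 1 ≤ k → IsFaceVector v → ψ i (k • v) = k * ψ i v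
  finite : ∃ T : Finset (Hypersurface n → ℕ), (∀ s ∈ T, IsFaceVector s ∧ s ≠ 0) ∧
    ∀ v, IsFaceVector v → ∃ w : (Hypersurface n → ℕ) → ℚ, (∀ s, 0 ≤ w s) ∧
      (∀ b, (v b : ℚ) = ∑ s ∈ T, w s * s b) ∧ ∀ i, ψ i v ≤ ∑ s ∈ T, w s * ψ i s

end places

section sections

variable {K : Type} [Field K] [Algebra ℂ K] {p : ℕ} (N : ℕ) (δ : Fin p → Place ℂ K → ℚ)

/-- `ω` is a section of `∑ i, μ i (K + Δ i) + j A`: a rational section of the power of the canonical
bundle with the exponent `∑ i, μ i` (`IsPluri`: a function of `N` rational vector fields which is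
multiplied by the power of `det B` under a linear substitution `B`) whose order on the vector fields
which are regular at `P` is at least `j` times the order of one of the functions in `S`, minus
`∑ i, μ i * δ i P`, where `δ i P` is the coefficient of `P` in the pullback of `K + Δ i`, for all
prime divisors `P` (all divisorial places `P` of `K`). Here `A` is the divisor which is generated by
the finite set `S` of functions; `A = 0` if `S = {1}`. -/
def IsSection (S : Finset K) (μ : Fin p →₀ ℕ) (j : ℕ) (ω : (Fin N → Derivation ℂ K K) → K) :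
    Prop :=
  IsPluri (∑ i, μ i) ω ∧ ∀ P : Place ℂ K, Divisorial N P → ∀ D : Fin N → Derivation ℂ K K,
    (∀ c, DerReg P (D c)) → ω D = 0 ∨ ∃ s ∈ S, s ≠ 0 ∧
      (j : ℚ) * P.ord s - ∑ i, (μ i : ℚ) * δ i P ≤ P.ord (ω D)

/-- The real combination `∑ i, lam i (K + Δ i)` is pseudo-effective: there is a divisor `A` such that
for all `M` a positive multiple `j (M ∑ i, lam i (K + Δ i) + A)` has a nonzero section, after a
change of the coefficients `j M lam i` by at most `j`. -/
def Pseudoeffective (lam : Fin p → ℝ) : Prop :=
  ∃ S : Finset K, ∀ M : ℕ, ∃ j : ℕ, 1 ≤ j ∧ ∃ μ : Fin p →₀ ℕ,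
    (∀ i, |(μ i : ℝ) - j * M * lam i| ≤ j) ∧ ∃ η, η ≠ 0 ∧ IsSection N δ S μ j η

/-- `s` is the asymptotic order of vanishing of `∑ i, lam i (K + Δ i)` along `P`, where the orders of
the sections are those of their values at the vector fields `D`: the orders of all sections of
divisors `∑ i, μ i (K + Δ i) + j A`, `μ ≠ 0`, which are close to `M ∑ i, lam i (K + Δ i)` are at
least `(s - ε) M`, and there are such sections, with `A = 0`, of order at most `(s + ε) M`. -/
def IsAsymptoticOrder (P : Place ℂ K) (D : Fin N → Derivation ℂ K K) (lam : Fin p → ℝ) (s : ℝ) :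
    Prop :=
  (∀ ε : ℝ, 0 < ε → ∀ S : Finset K, ∃ θ : ℝ, 0 < θ ∧ ∃ M₀ : ℕ, ∀ M : ℕ, M₀ ≤ M →
    ∀ (μ : Fin p →₀ ℕ) (j : ℕ) (η : (Fin N → Derivation ℂ K K) → K), μ ≠ 0 →
      (∀ i, |(μ i : ℝ) - M * lam i| ≤ θ * M) → (j : ℝ) ≤ θ * M → IsSection N δ S μ j η →
        η D ≠ 0 → (s - ε) * M ≤ P.ord (η D)) ∧
  ∀ ε : ℝ, 0 < ε → ∀ M₀ : ℕ, ∃ M : ℕ, M₀ ≤ M ∧ ∃ (μ : Fin p →₀ ℕ)
    (η : (Fin N → Derivation ℂ K K) → K), (∀ i, |(μ i : ℝ) - M * lam i| ≤ ε * M) ∧
      IsSection N δ {1} μ 0 η ∧ η D ≠ 0 ∧ (P.ord (η D) : ℝ) ≤ (s + ε) * M

/-- There are sections which do not vanish at the vector fields `D`. -/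
def Admissible (D : Fin N → Derivation ℂ K K) : Prop :=
  ∃ S μ j η, μ ≠ 0 ∧ IsSection N δ S μ j η ∧ η D ≠ 0

/-- The linear functions `s P D` give the asymptotic orders of vanishing of the combinations near
`lam`, which are all pseudo-effective with nonnegative entries. -/
def IsModel (lam : Fin p → ℝ)
    (s : Place ℂ K → (Fin N → Derivation ℂ K K) → ((Fin p → ℝ) →ₗ[ℝ] ℝ)) : Prop :=
  ∀ (P : Place ℂ K) (D : Fin N → Derivation ℂ K K), Admissible N δ D → ∃ U ∈ 𝓝 lam,
    ∀ lam' ∈ U, (∀ i, 0 ≤ lam' i) ∧ Pseudoeffective N δ lam' ∧
      IsAsymptoticOrder N δ P D lam' (s P D lam')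

end sections

section proof

variable {K : Type} [Field K] [Algebra ℂ K] {p N : ℕ} {δ : Fin p → Place ℂ K → ℚ}

open Pool.Agent.Q57.FG Pool.Agent.Q57.GC Pool.Agent.Q57.GG

lemma msec_of {μ : Fin p →₀ ℕ} {η : (Fin N → Derivation ℂ K K) → K}
    (h : IsSection N δ {1} μ 0 η) : MSec N δ μ η := by
  refine ⟨h.1, fun P hP D hD => (h.2 P hP D hD).imp id fun hle => ?_⟩
  obtain ⟨s, hs, -, hle⟩ := hle
  rw [Nat.cast_zero, zero_mul, zero_sub] at hle
  exact hle

lemma asOrd_iff (P : Place ℂ K) (D : Fin N → Derivation ℂ K K) (lam : Fin p → ℝ) (s : ℝ) :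
    IsAsymptoticOrder N δ P D lam s ↔ AsOrd N δ P D lam s := by
  constructor
  · rintro ⟨h1, h2⟩
    refine ⟨h1, fun ε hε M₀ => ?_⟩
    obtain ⟨M, hM, μ, η, h3, h4, h5, h6⟩ := h2 ε hε M₀
    exact ⟨M, hM, μ, η, h3, msec_of h4, h5, h6⟩
  · rintro ⟨h1, h2⟩
    refine ⟨h1, fun ε hε M₀ => ?_⟩
    obtain ⟨M, hM, μ, η, h3, h4, h5, h6⟩ := h2 ε hε M₀
    exact ⟨M, hM, μ, η, h3, msec_asec h4, h5, h6⟩

lemma isModel_iff (lam : Fin p → ℝ)
    (s : Place ℂ K → (Fin N → Derivation ℂ K K) → ((Fin p → ℝ) →ₗ[ℝ] ℝ)) :
    IsModel N δ lam s ↔ Pool.Agent.Q68.MF.Mdl N δ lam s := by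
  constructor
  · intro h P D hD
    obtain ⟨U, hU, h1⟩ := h P D hD
    exact ⟨U, hU, fun lam' hl => ⟨(h1 lam' hl).1, (h1 lam' hl).2.1,
      (asOrd_iff P D _ _).1 (h1 lam' hl).2.2⟩⟩
  · intro h P D hD
    obtain ⟨U, hU, h1⟩ := h P D hD
    exact ⟨U, hU, fun lam' hl => ⟨(h1 lam' hl).1, (h1 lam' hl).2.1,
      (asOrd_iff P D _ _).2 (h1 lam' hl).2.2⟩⟩

end proof

/-- **The main theorem.** For given dimensions `n i`, degrees `d (i, k)`, integers `κ i` and functions
`ψ i` there is an integer `B` such that for all projective varieties `V i` of dimension `n i` with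
`n i + 1` forms of the degrees `d (i, k)` without common zeros, all finite extensions `K` of the
function field of the product and all forms `Ω`: there are at most `B` models, every open set of
pseudo-effective combinations contains a model, and every sequence of models in which no discrepancy
with respect to the divisor of `c` decreases and at least one discrepancy increases in every step has
at most `B` terms. -/
theorem result (r N p : ℕ) (n : Fin r → ℕ) (hn : ∀ i, 1 ≤ n i) (hN1 : 1 ≤ N)
    (hN : N = ∑ i, n i) (d : Hypersurface n → ℕ) (hd : ∀ b, 1 ≤ d b) (κ : Fin r → ℤ)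
    (ψ : Fin p → (Hypersurface n → ℕ) → ℚ) (hψ : AreLogDiscrepancies ψ) :
    ∃ B : ℕ,
      ∀ (K : Type) [Field K] [Algebra ℂ K] [Algebra.EssFiniteType ℂ K] (M : Fin r → ℕ)
        (F : ∀ b : Hypersurface n, MvPolynomial (Fin (M b.1 + 1)) ℂ)
        (x : ∀ i, Fin (M i + 1) → K) (Ω : (Fin N → Derivation ℂ K K) → K)
        (δ : Fin p → Place ℂ K → ℚ),
        (∀ b, (F b).IsHomogeneous (d b)) → (∀ i j, x i j ≠ 0) → NoCommonZeros F x →
        IsTranscendenceBasis ℂ (ratio F d x) → IsPluri 1 Ω → Ω ≠ 0 →
        (∀ i, δ i = coefficient F d κ x Ω (ψ i)) →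
        (∀ (lam : Fin (B + 1) → Fin p → ℝ)
          (s : Fin (B + 1) → Place ℂ K → (Fin N → Derivation ℂ K K) → ((Fin p → ℝ) →ₗ[ℝ] ℝ)),
          (∀ j, IsModel N δ (lam j) (s j)) →
            ∃ i j, i < j ∧ ∀ P D, Admissible N δ D → s i P D = s j P D) ∧
        (∀ (lam : Fin p → ℝ) (U : Set (Fin p → ℝ)), U ∈ 𝓝 lam →
          (∀ lam' ∈ U, (∀ i, 0 ≤ lam' i) ∧ Pseudoeffective N δ lam') →
            ∃ lam' ∈ U, ∃ s, IsModel N δ lam' s) ∧
        ∀ (m : ℕ) (lam : ℕ → Fin p → ℝ)
          (s : ℕ → Place ℂ K → (Fin N → Derivation ℂ K K) → ((Fin p → ℝ) →ₗ[ℝ] ℝ))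
          (c : Fin p → ℝ), (∀ j ≤ m, IsModel N δ (lam j) (s j)) →
          (∀ j < m, ∀ P D, Admissible N δ D → s j P D c ≤ s (j + 1) P D c) →
          (∀ j < m, ∃ P D, Admissible N δ D ∧ s j P D c < s (j + 1) P D c) → m < B := by
  obtain ⟨T0, hT0, hT1⟩ := hψ.finite
  obtain ⟨_, _, t, h, T, _, hT, H⟩ := Pool.Agent.Q57.UG.top_u hn hN1 hN hd κ (p := p) (ψ := ψ)
    ⟨T0, hψ.homogeneous, hT0, hT1⟩
  refine ⟨2 ^ t, ?_⟩
  intro K _ _ _ M F x Ω δ hF hx hno hbas hΩ hΩ0 hδ
  have hch := (H K M F x Ω δ hF hx hno hbas hΩ hΩ0 fun i P => congrFun (hδ i) P).2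
  refine ⟨fun lam s hs => ?_, fun lam U hU h1 => ?_, fun m lam s c hs hle hlt => ?_⟩
  · exact Pool.Agent.Q68.MF.finite_models hch lam s fun j => (isModel_iff _ _).1 (hs j)
  · obtain ⟨lam', h2, s, h3⟩ := Pool.Agent.Q68.MF.exists_model hch hU h1
    exact ⟨lam', h2, s, (isModel_iff _ _).2 h3⟩
  · exact Pool.Agent.Q68.MF.termination hch m lam s (fun j hj => (isModel_iff _ _).1 (hs j hj))
      c hle hlt

end Pool.Agent.Results.MP_a06248_ag.UniformTermination
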